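import Mathlib

open Finset

namespace Pool.Agent.Results.MP_fb2c2a_nt.Fails

def Cg (p m : ℕ) (u v : ℚ) : Prop := (p : ℤ) ^ m ∣ (u - v).num

def D (n : ℕ) (x : ℚ) : ℚ := ∑ k ∈ range (n + 1), (n.choose k : ℚ) * ((n + k).choose k : ℚ) * x ^ k
def P (p : ℕ) (x : ℚ) : ℚ := ∑ k ∈ range p, D k x ^ 3
def A (p : ℕ) (x : ℚ) : ℚ := ∑ k ∈ range p, (-1) ^ k * D k x ^ 3

theorem result : ¬ ∀ p : ℕ, p.Prime → 3 < p →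
    (Cg p 2 (P p (-3)) (A p (-1 / 4)) ∧ Cg p 2 (P p (-3)) (jacobiSym (-2) p * A p (1 / 8)) ∧
      (∀ x y : ℤ, p % 3 = 1 → (p : ℤ) = x ^ 2 + 3 * y ^ 2 →
        Cg p 2 (P p (-3)) (jacobiSym (-1) p * (4 * x ^ 2 - 2 * p))) ∧
      (p % 3 = 2 → Cg p 2 (P p (-3)) 0)) ∧
    ((∀ x y : ℤ, (p % 24 = 1 ∨ p % 24 = 7) → (p : ℤ) = x ^ 2 + 6 * y ^ 2 →
        Cg p 2 (jacobiSym (-1) p * A p (1 / 2)) (4 * x ^ 2 - 2 * p)) ∧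
      (∀ x y : ℤ, (p % 24 = 5 ∨ p % 24 = 11) → (p : ℤ) = 2 * x ^ 2 + 3 * y ^ 2 →
        Cg p 2 (jacobiSym (-1) p * A p (1 / 2)) (8 * x ^ 2 - 2 * p)) ∧
      (jacobiSym (-6) p = -1 → Cg p 2 (jacobiSym (-1) p * A p (1 / 2)) 0)) ∧
    (Cg p 2 (P p 3) (jacobiSym (-5) p * A p (-1 / 16)) ∧
      (∀ x y : ℤ, (p % 15 = 1 ∨ p % 15 = 4) → (p : ℤ) = x ^ 2 + 15 * y ^ 2 →
        Cg p 2 (P p 3) (4 * x ^ 2 - 2 * p)) ∧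
      (∀ x y : ℤ, (p % 15 = 2 ∨ p % 15 = 8) → (p : ℤ) = 3 * x ^ 2 + 5 * y ^ 2 →
        Cg p 2 (P p 3) (12 * x ^ 2 - 2 * p)) ∧
      (jacobiSym p 15 = -1 → Cg p 2 (P p 3) 0)) := by
  intro h
  have h1 := (h 5 (by norm_num) (by norm_num)).2.2.1
  have hj : jacobiSym (-5) 5 = 0 := by norm_num
  rw [hj] at h1
  revert h1
  unfold Cg P D
  simp only [Int.cast_zero, zero_mul]
  decide +kernel

end Pool.Agent.Results.MP_fb2c2a_nt.Fails
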